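import Mathlib
import Pool.Agent.W484.CK.Main

/-!
# Rational and numerical equivalence on products with almost all abelian varieties

Let `g i` (`i` in a finite set `I`) be positive integers, `r` an integer smaller than all the `g i`
and `E` a number field.  For a prime power `q` let `S i` be the set of the characteristic
polynomials of Frobenius of the ordinary abelian varieties of dimension `g i` over the field with `q`
elements, or of all abelian varieties of dimension `g i`, or any set in between.  By Weil, Honda and
Tate its elements correspond to the isogeny classes, the first set contains `ordinaryWeilPolys q
(g i)`, and the second one is contained in `weilPolys q (g i)`.

For all families `f i` in `S i` with the exception of a proportion `O (q ^ (-1 / 6) log q)`, the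
constant depending only on `g` and `E`, the following holds for all `s > 0`, `Q = q ^ s`, all
abelian varieties `A` over the field with `Q` elements which are isogenous to products of powers of
abelian varieties coming from the field with `q` elements, with characteristic polynomials `f i`,
and **all** smooth projective varieties `Z` over the field with `Q` elements such that

* the eigenvalues of Frobenius on the cohomology of `Z` and their conjugates generate a group of rank
  at most `r` modulo the group of the numbers with a power in `E`;
* homologically trivial self-correspondences of degree zero of `A × Z` are nilpotent, for instance
  the motive of `Z` is finite-dimensional in the sense of Kimura and O'Sullivan. This is known for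
  all varieties dominated by products of curves, and for their products with `A`.

The Chow groups with rational coefficients satisfy the Kunneth formula
`CH^i (A × Z) = ⨁ D j × CH^(i - deg j) (Z)`, where the `D j` are finitely many products of divisors
on `A`; and **rational and numerical equivalence coincide on `A × Z` if and only if they coincide on
`Z`**; similarly for rational and homological equivalence.

The coincidence of rational and numerical equivalence with rational coefficients is equivalent to
the perfectness of the pairings in the conjecture of Beilinson, since the groups of cycles modulo
numerical equivalence are finite-dimensional with perfect pairings.

For `r = 0` the assumption on the eigenvalues is: the eigenvalues of Frobenius and their conjugates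
have powers in `E`.  If for instance `Z` is any given variety over the field with `q'` elements, one
can take for `E` the field generated by the eigenvalues of Frobenius and their conjugates, and
applies the theorem to the powers `q` of `q'`.  For `E = ℚ` the assumption holds for all products of
powers of curves the sum of whose genera is at most `r`. The bound `r < g i` is sharp: for `Z = A i`
the Kunneth formula in this form does not hold, because of the graphs of homomorphisms.

The framework (`TheoryData`, `IsChow`, `IsWeil`) is the one of helper492: the Chow groups `C` with
their pull-backs, push-forwards and products, and a Weil cohomology theory `H` with coefficients in
an algebraically closed field `K`, on a class `𝒱` of smooth proper varieties over `k`.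

The idea of the proof: by a sieve (helper521), which only uses the primes that split completely in
the Galois closure of `E` - these have positive density by the theorem of Chebotarev, formalized by
helper401 - almost all families are such that each pair `α`, `q / α` of roots can be exchanged by a
Galois automorphism which fixes all the other roots of all the `f i` and also all elements of `E`.
It follows that the generalized eigenvectors of Frobenius in the cohomology of `A × Z` for the
eigenvalues `Q ^ i` are sums of products of classes of products of divisors on `A` and of classes on
`Z`. Let `p` be the projector given by the `D j` and dual classes, and `P` a polynomial killing all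
the other eigenvalues and with `P (Q ^ i) = 1`. The correspondence `(1 - p) P (F)` is homologically
trivial, hence nilpotent; as it acts on `CH^i (A × Z)` as the idempotent `1 - p`, this idempotent is
zero. (The idea to play the eigenvalues of Frobenius off against nilpotence is due to Soule,
Geisser and Kahn.)
-/

set_option autoImplicit false

namespace Pool.Agent.Results.MP_4960c7_ag.AlmostAllAbelianFactors

open Polynomial Pool.Agent.W521.Descent Pool.Agent.W521.Count Pool.Agent.W484.TB
  Pool.Agent.W484.CK

/-- `weilPolys q g` is the set of monic integral polynomials of degree `2 g` with constant term
`q ^ g` and all roots of absolute value `√q`; `ordinaryWeilPolys q g` is the subset of those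
whose coefficient of index `g` is prime to `q`. -/
theorem result {I : Type} [Fintype I] (g : I → ℕ) (r : ℕ) (hr : ∀ i, r < g i)
    (E : IntermediateField ℚ ℂ) [FiniteDimensional ℚ E] :
    ∃ C : ℝ, ∀ q : ℕ, IsPrimePow q → ∀ S : I → Set ℤ[X],
      (∀ i, ordinaryWeilPolys q (g i) ⊆ S i ∧ S i ⊆ weilPolys q (g i)) →
      (∀ i, (S i).Finite ∧ (S i).Nonempty) ∧
      ({f : I → ℤ[X] | (∀ i, f i ∈ S i) ∧ ¬ ChowForRankOver E q r f}.ncard : ℝ) ≤
        C * (Real.log q * (q : ℝ) ^ (-(1 / 6) : ℝ)) * ∏ i, ((S i).ncard : ℝ) :=
  count_of_goodU (splitPrimes E) (dense_splitPrimes E) g
    (fun i => (Nat.zero_le r).trans_lt (hr i)) (fun q f => ChowForRankOver E q r f)
    fun _ hq x hx => chowForRankOver_of_good g E hq.one_lt r hr x hx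

end Pool.Agent.Results.MP_4960c7_ag.AlmostAllAbelianFactors
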